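import Pool.Agent.helper23.F2.Spec

set_option autoImplicit false

open scoped BigOperators

namespace Pool.Agent.F2

open Pool.Agent.helper23.TH

theorem AL11_hh_one {V : Type} [Fintype V] (A : V → V → Prop) : hh A 1 = ∑ v, (dg A Finset.univ v : ℝ) := by
  classical
  unfold hh dg
  refine Finset.sum_congr rfl fun a _ => ?_
  rw [Finset.card_filter]
  push_cast
  refine Finset.sum_congr rfl fun b _ => ?_
  rw [pow_one]
  unfold am
  simp only [Matrix.of_apply]
  split_ifs <;> simp

theorem AL11 (hAL10 : AL10_stmt) : AL11_stmt := by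
  classical
  intro H t b s hW ht
  rcases Nat.lt_or_ge t 2 with h1 | h2
  · have e : t = 1 := by omega
    subst e
    refine ⟨1, one_pos, ?_⟩
    intro V L _ _ G Δ hV hΔ hd _
    rw [AL11_hh_one, one_mul, pow_one]
    calc ∑ v, (dg G.A Finset.univ v : ℝ) ≤ ∑ _v : V, Δ := Finset.sum_le_sum fun v _ => hd v
      _ = (Fintype.card V : ℝ) * Δ := by simp
  · obtain ⟨k, rfl⟩ : ∃ k, t = k + 1 := ⟨t - 1, by omega⟩
    obtain ⟨C, hC, h⟩ := hAL10 H k b s hW (by omega)
    refine ⟨C, hC, ?_⟩
    intro V L _ _ G Δ hV hΔ hd hno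
    by_contra hlt
    exact hno (h V L G Δ hV hΔ hd (not_le.1 hlt).le)

end Pool.Agent.F2
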