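import Pool.Agent.helper23.F2.Spec

set_option autoImplicit false

open scoped BigOperators

namespace Pool.Agent.F2

open Pool.Agent.helper23.TH

/-- the number of maps with prescribed values on a set of at most `m` elements -/
theorem CL5_count {O L : Type} [Fintype O] [Fintype L] [DecidableEq L] [DecidableEq O] (hO : 0 < Fintype.card O) (T : Finset L)
    (g : L → O) (m : ℕ) (hT : T.card ≤ m) :
    Fintype.card O ^ Fintype.card L ≤ Fintype.card O ^ m * ((Finset.univ : Finset (L → O)).filter fun ρ => ∀ z ∈ T, ρ z = g z).card := by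
  -- injection of `L → O` into `(T → O) × {ρ : ρ = g on T}`
  have h1 : Fintype.card (L → O) ≤ Fintype.card ((T → O) × {ρ : L → O // ∀ z ∈ T, ρ z = g z}) := by
    refine Fintype.card_le_of_injective
      (fun ρ => (fun z => ρ z.1, ⟨fun z => if z ∈ T then g z else ρ z, fun z hz => if_pos hz⟩)) ?_
    intro ρ ρ' h
    simp only [Prod.mk.injEq, Subtype.mk.injEq] at h
    obtain ⟨ha, hb⟩ := h
    funext z
    by_cases hz : z ∈ T
    · exact congrFun ha ⟨z, hz⟩
    · have := congrFun hb z
      simpa [hz] using this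
  rw [Fintype.card_prod, Fintype.card_fun, Fintype.card_fun, Fintype.card_coe, Fintype.card_subtype] at h1
  refine h1.trans (Nat.mul_le_mul_right _ (Nat.pow_le_pow_right hO hT))

theorem CL5 : CL5_stmt := by
  classical
  intro X O L _ _ S ob b hO hS
  -- double counting
  by_contra hno
  push Not at hno
  -- for every `ρ`: `card O ^ (b card O) * #S_ρ < #S`
  have key : ∀ x ∈ S, Fintype.card O ^ Fintype.card L ≤ Fintype.card O ^ (b * Fintype.card O) *
      ((Finset.univ : Finset (L → O)).filter fun ρ => ∀ o, ∀ z ∈ ob x o, ρ z = o).card := by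
    intro x hx
    obtain ⟨h1, h2⟩ := hS x hx
    set T : Finset L := Finset.univ.biUnion (ob x) with hT
    have hTc : T.card ≤ b * Fintype.card O := by
      calc T.card ≤ ∑ o : O, (ob x o).card := Finset.card_biUnion_le
        _ ≤ ∑ _o : O, b := Finset.sum_le_sum fun o _ => h1 o
        _ = b * Fintype.card O := by simp [mul_comm]
    obtain ⟨o₀⟩ : Nonempty O := Fintype.card_pos_iff.1 hO
    let g : L → O := fun z => if h : ∃ o, z ∈ ob x o then h.choose else o₀
    have hg : ∀ o, ∀ z ∈ ob x o, g z = o := by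
      intro o z hz
      have hex : ∃ o, z ∈ ob x o := ⟨o, hz⟩
      have e : g z = hex.choose := dif_pos hex
      rw [e]
      by_contra hne
      exact Finset.disjoint_left.1 (h2 _ _ hne) hex.choose_spec hz
    refine (CL5_count hO T g _ hTc).trans ?_
    refine Nat.mul_le_mul_left _ (Finset.card_le_card ?_)
    intro ρ hρ
    rw [Finset.mem_filter] at hρ ⊢
    refine ⟨hρ.1, fun o z hz => ?_⟩
    rw [hρ.2 z (by rw [hT, Finset.mem_biUnion]; exact ⟨o, Finset.mem_univ _, hz⟩), hg o z hz]
  have hsum : ∑ ρ : L → O, (S.filter fun x => ∀ o, ∀ z ∈ ob x o, ρ z = o).card =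
      ∑ x ∈ S, ((Finset.univ : Finset (L → O)).filter fun ρ => ∀ o, ∀ z ∈ ob x o, ρ z = o).card := by
    simp only [Finset.card_filter]
    rw [Finset.sum_comm]
  have hA : S.card * Fintype.card O ^ Fintype.card L ≤ Fintype.card O ^ (b * Fintype.card O) *
      ∑ ρ : L → O, (S.filter fun x => ∀ o, ∀ z ∈ ob x o, ρ z = o).card := by
    rw [hsum, Finset.mul_sum]
    calc S.card * Fintype.card O ^ Fintype.card L = ∑ _x ∈ S, Fintype.card O ^ Fintype.card L := by simp
      _ ≤ _ := Finset.sum_le_sum key
  have hB : Fintype.card O ^ (b * Fintype.card O) * ∑ ρ : L → O, (S.filter fun x => ∀ o, ∀ z ∈ ob x o, ρ z = o).card <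
      S.card * Fintype.card O ^ Fintype.card L := by
    rw [Finset.mul_sum]
    have hne : (Finset.univ : Finset (L → O)).Nonempty := by
      obtain ⟨o₀⟩ : Nonempty O := Fintype.card_pos_iff.1 hO
      exact ⟨fun _ => o₀, Finset.mem_univ _⟩
    calc _ < ∑ _ρ : L → O, S.card := Finset.sum_lt_sum_of_nonempty hne fun ρ _ => hno ρ
      _ = S.card * Fintype.card O ^ Fintype.card L := by
        rw [Finset.sum_const, Finset.card_univ, Fintype.card_fun, smul_eq_mul, mul_comm]
  omega

end Pool.Agent.F2
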