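import Pool.Agent.helper23.F2.Spec

set_option autoImplicit false

open scoped BigOperators

namespace Pool.Agent.F2

open Pool.Agent.helper23.TH

theorem MT4_nsq_nonneg {V : Type} [Fintype V] (M : Matrix V V ℝ) : 0 ≤ nsq M :=
  Finset.sum_nonneg fun _ _ => Finset.sum_nonneg fun _ _ => sq_nonneg _

theorem MT4 (hMT2 : MT2_stmt) (hMT3 : MT3_stmt) : MT4_stmt := by
  classical
  intro V L _ _ A P hA hP i j
  have h2 := hMT2 V L A P hA hP
  constructor
  · have h := hMT3 (i + j) (fun m => ∑ x, nsq (A ^ m * P x * A ^ (i + j - m)))
      (fun m => Finset.sum_nonneg fun _ _ => MT4_nsq_nonneg _) (by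
        intro m hm
        have h3 := (h2 m (i + j - m - 2)).1
        have e1 : i + j - m - 2 + 1 = i + j - (m + 1) := by omega
        have e2 : i + j - m - 2 + 2 = i + j - m := by omega
        have e3 : i + j - m - 2 = i + j - (m + 2) := by omega
        rw [e1, e2, e3] at h3
        exact h3) (by
        have h3 := (h2 0 (i + j)).2
        have e1 : i + j - (i + j) = 0 := by omega
        have e2 : i + j - 0 = i + j := by omega
        simp only [e1, e2]
        exact h3) i (by omega)
    have e1 : i + j - i = j := by omega
    have e2 : i + j - 0 = i + j := by omega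
    simp only [e1, e2, pow_zero, one_mul] at h
    exact h
  · have h := hMT3 (i + j) (fun m => ∑ x, nsq (A ^ (m + 1) * P x * A ^ (i + j + 1 - m)))
      (fun m => Finset.sum_nonneg fun _ _ => MT4_nsq_nonneg _) (by
        intro m hm
        have h3 := (h2 (m + 1) (i + j - m - 1)).1
        have e1 : i + j - m - 1 + 1 = i + j + 1 - (m + 1) := by omega
        have e2 : i + j - m - 1 + 2 = i + j + 1 - m := by omega
        have e3 : i + j - m - 1 = i + j + 1 - (m + 2) := by omega
        have e4 : m + 1 + 2 = m + 2 + 1 := by omega
        rw [e1, e2, e3, e4] at h3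
        exact h3) (by
        have h3 := (h2 1 (i + j + 1)).2
        have e1 : i + j + 1 - (i + j) = 1 := by omega
        have e2 : i + j + 1 - 0 = i + j + 1 := by omega
        simp only [e1, e2, zero_add]
        exact h3) i (by omega)
    have e1 : i + j + 1 - i = j + 1 := by omega
    have e2 : i + j + 1 - 0 = i + j + 1 := by omega
    simp only [e1, e2, zero_add, pow_one] at h
    exact h

end Pool.Agent.F2
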